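import Pool.Agent.Helper64.RFn.GoalsF

/-!
# Packet BDRn (MP_c98eff_gt): the boundary of the region has small image
-/

open MeasureTheory Set

open scoped RealInnerProductSpace

namespace Pool.Agent.Helper23.RFn

open Pool.Agent.Helper64.RFn

variable {m : ℕ}

theorem adj_le {P : V m →L[ℝ] V m} (hP : ∀ a b, ⟪P a, P b⟫ = ⟪a, b⟫) (v : V m) :
    ‖ContinuousLinearMap.adjoint P v‖ ≤ ‖v‖ := by
  have h1 : ‖P‖ ≤ 1 := by
    refine ContinuousLinearMap.opNorm_le_bound _ zero_le_one fun a => ?_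
    have h := hP a a
    rw [real_inner_self_eq_norm_sq, real_inner_self_eq_norm_sq] at h
    rw [one_mul]
    exact le_of_eq ((sq_eq_sq₀ (norm_nonneg _) (norm_nonneg _)).1 h)
  calc ‖ContinuousLinearMap.adjoint P v‖ ≤ ‖ContinuousLinearMap.adjoint P‖ * ‖v‖ :=
        ContinuousLinearMap.le_opNorm _ _
    _ ≤ 1 * ‖v‖ := by
        rw [LinearIsometryEquiv.norm_map]
        exact mul_le_mul_of_nonneg_right h1 (norm_nonneg _)
    _ = ‖v‖ := one_mul _

theorem exists_orth (hm : 3 ≤ m) (e p : V m) : ∃ r : V m, r ≠ 0 ∧ ⟪r, e⟫ = 0 ∧ ⟪r, p⟫ = 0 := by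
  set L : V m →ₗ[ℝ] ℝ × ℝ := ((innerₗ (V m)) e).prod ((innerₗ (V m)) p) with hL
  have hk : LinearMap.ker L ≠ ⊥ := by
    apply LinearMap.ker_ne_bot_of_finrank_lt
    rw [Module.finrank_prod, Module.finrank_self, finrank_euclideanSpace, Fintype.card_fin]
    omega
  obtain ⟨r, hr, hr0⟩ := Submodule.exists_mem_ne_zero_of_ne_bot hk
  have hr := Prod.mk_eq_zero.1 (LinearMap.mem_ker.1 hr : (⟪e, r⟫, ⟪p, r⟫) = (0 : ℝ × ℝ))
  refine ⟨r, hr0, ?_, ?_⟩
  · rw [real_inner_comm]; exact hr.1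
  · rw [real_inner_comm]; exact hr.2

theorem exists_mid (hm : 3 ≤ m) {e p q : V m} {ρ : ℝ} (hρ : 0 < ρ) (hpe : ⟪p, e⟫ = 0)
    (hqe : ⟪q, e⟫ = 0) (hp : ‖p‖ = ρ) (hq : ‖q‖ = ρ) :
    ∃ r : V m, ⟪r, e⟫ = 0 ∧ ‖r‖ = ρ ∧ 0 ≤ ⟪p, r⟫ ∧ 0 ≤ ⟪q, r⟫ := by
  have key : ∃ w : V m, w ≠ 0 ∧ ⟪w, e⟫ = 0 ∧ 0 ≤ ⟪p, w⟫ ∧ 0 ≤ ⟪q, w⟫ := by
    by_cases h : p + q = 0
    · obtain ⟨r, h0, h1, h2⟩ := exists_orth hm e p
      have hq' : q = -p := by rw [add_comm] at h; exact eq_neg_of_add_eq_zero_left h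
      have h3 : ⟪p, r⟫ = 0 := by rw [real_inner_comm]; exact h2
      refine ⟨r, h0, h1, h3.ge, ?_⟩
      rw [hq', inner_neg_left, h3, neg_zero]
    · have hcs : -(ρ * ρ) ≤ ⟪p, q⟫ := by
        have := abs_le.1 (abs_real_inner_le_norm p q)
        rw [hp, hq] at this
        exact this.1
      refine ⟨p + q, h, ?_, ?_, ?_⟩
      · rw [inner_add_left, hpe, hqe, add_zero]
      · rw [inner_add_right, real_inner_self_eq_norm_sq, hp]; nlinarith
      · rw [inner_add_right, real_inner_self_eq_norm_sq, hq, real_inner_comm]; nlinarith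
  obtain ⟨w, w0, w1, w2, w3⟩ := key
  have hw : 0 < ‖w‖ := norm_pos_iff.2 w0
  have hl : 0 ≤ ρ / ‖w‖ := by positivity
  refine ⟨(ρ / ‖w‖) • w, ?_, ?_, ?_, ?_⟩
  · rw [real_inner_smul_left, w1, mul_zero]
  · rw [norm_smul, Real.norm_eq_abs, abs_of_nonneg hl, div_mul_cancel₀ _ hw.ne']
  · rw [real_inner_smul_right]; exact mul_nonneg hl w2
  · rw [real_inner_smul_right]; exact mul_nonneg hl w3

theorem bdrn (jac : JACn) : BDRn := by
  intro m e c c' C0 ε T B P hm he hc hcc' hc1 hε hC0 hcone hT hdev x x' hx hx' hxe hx'e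
  obtain ⟨-, hjac⟩ := jac m e c' ε T B P hcone hdev
  set F := FF T P with hF
  set ρ := Real.sqrt (1 - c ^ 2) with hρ
  have hc2 : 0 < 1 - c ^ 2 := by nlinarith
  have hρ0 : 0 < ρ := Real.sqrt_pos.2 hc2
  have hρ2 : ρ ^ 2 = 1 - c ^ 2 := Real.sq_sqrt hc2.le
  have hee : ⟪e, e⟫ = 1 := by rw [real_inner_self_eq_norm_sq, he]; norm_num
  -- derivative bound
  have hder : ∀ y : V m, y ≠ 0 → -(c' * ‖y‖) < ⟪y, e⟫ → DifferentiableAt ℝ F y ∧
      ∀ v, ‖fderiv ℝ F y v‖ ≤ (Real.sqrt C0 + ε) * ‖v‖ := by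
    intro y hy hye
    obtain ⟨h1, h2⟩ := hjac y hy hye
    refine ⟨h1.differentiableAt (by simp), fun v => ?_⟩
    have h3 : ‖ContinuousLinearMap.adjoint (P (‖y‖⁻¹ • y)) (T y v)‖ ≤ Real.sqrt C0 * ‖v‖ := by
      refine (adj_le (hdev.orth _) _).trans ?_
      refine le_of_sq_le_sq ?_ (by positivity)
      rw [mul_pow, Real.sq_sqrt hC0]
      exact hT y hy v
    calc ‖fderiv ℝ F y v‖
        = ‖(fderiv ℝ F y v - ContinuousLinearMap.adjoint (P (‖y‖⁻¹ • y)) (T y v))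
            + ContinuousLinearMap.adjoint (P (‖y‖⁻¹ • y)) (T y v)‖ := by rw [sub_add_cancel]
      _ ≤ ε * ‖v‖ + Real.sqrt C0 * ‖v‖ := (norm_add_le _ _).trans (add_le_add (h2 v) h3)
      _ = (Real.sqrt C0 + ε) * ‖v‖ := by ring
  -- one segment
  have seg : ∀ p q : V m, ⟪p, e⟫ = 0 → ⟪q, e⟫ = 0 → ‖p‖ = ρ → ‖q‖ = ρ → 0 ≤ ⟪p, q⟫ →
      ‖F (-(c • e) + (p + q)) - F (-(c • e) + p)‖ ≤ (Real.sqrt C0 + ε) * ρ := by
    intro p q hpe hqe hp hq hpq
    set y : ℝ → V m := fun t => -(c • e) + (p + t • q) with hy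
    have hye : ∀ t, ⟪y t, e⟫ = -c := fun t => by
      simp only [hy]
      rw [inner_add_left, inner_neg_left, real_inner_smul_left, hee, inner_add_left, hpe,
        real_inner_smul_left, hqe]
      ring
    have hyn : ∀ t, 0 ≤ t → 1 ≤ ‖y t‖ := fun t ht => by
      have h1 : ‖y t‖ ^ 2 = c ^ 2 + ‖p + t • q‖ ^ 2 := by
        have h2 : ⟪-(c • e), p + t • q⟫ = 0 := by
          rw [inner_neg_left, real_inner_smul_left, real_inner_comm, inner_add_left, hpe,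
            real_inner_smul_left, hqe]
          ring
        simp only [hy]
        rw [norm_add_sq_real, h2, norm_neg, norm_smul, he, Real.norm_eq_abs, mul_one, sq_abs]
        ring
      have h3 : ρ ^ 2 ≤ ‖p + t • q‖ ^ 2 := by
        rw [norm_add_sq_real, hp, real_inner_smul_right]
        have : 0 ≤ t * ⟪p, q⟫ := mul_nonneg ht hpq
        have : 0 ≤ ‖t • q‖ ^ 2 := sq_nonneg _
        linarith
      have h4 : (1 : ℝ) ^ 2 ≤ ‖y t‖ ^ 2 := by rw [h1]; linarith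
      exact le_of_sq_le_sq h4 (norm_nonneg _)
    have hy0 : ∀ t, 0 ≤ t → y t ≠ 0 := fun t ht h => by
      have := hyn t ht
      rw [h, norm_zero] at this
      linarith
    have hreg : ∀ t, 0 ≤ t → -(c' * ‖y t‖) < ⟪y t, e⟫ := fun t ht => by
      rw [hye]
      have := hyn t ht
      nlinarith
    have hd : ∀ t ∈ Icc (0:ℝ) 1, HasDerivWithinAt (fun t : ℝ => F (y t)) (fderiv ℝ F (y t) q)
        (Icc 0 1) t := by
      intro t ht
      have k1 : HasDerivAt y q t := by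
        simp only [hy]
        have := ((hasDerivAt_id t).smul_const q).const_add p
        simpa using this.const_add (-(c • e))
      exact ((hder _ (hy0 t ht.1) (hreg t ht.1)).1.hasFDerivAt.comp_hasDerivAt t k1).hasDerivWithinAt
    have hb : ∀ t ∈ Ico (0:ℝ) 1, ‖fderiv ℝ F (y t) q‖ ≤ (Real.sqrt C0 + ε) * ρ := by
      intro t ht
      rw [← hq]
      exact (hder _ (hy0 t ht.1) (hreg t ht.1)).2 q
    have hm := norm_image_sub_le_of_norm_deriv_le_segment_01' hd hb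
    have e1 : y 1 = -(c • e) + (p + q) := by simp [hy]
    have e0 : y 0 = -(c • e) + p := by simp [hy]
    simpa only [e1, e0] using hm
  -- decomposition of the points
  have dec : ∀ x : V m, ‖x‖ = 1 → ⟪x, e⟫ = -c → ⟪x + c • e, e⟫ = 0 ∧ ‖x + c • e‖ = ρ := by
    intro x hx hxe
    constructor
    · rw [inner_add_left, hxe, real_inner_smul_left, hee]; ring
    · have h1 : ‖x + c • e‖ ^ 2 = ρ ^ 2 := by
        rw [norm_add_sq_real, hx, real_inner_smul_right, hxe, norm_smul, he, Real.norm_eq_abs,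
          mul_one, sq_abs, hρ2]
        ring
      exact (sq_eq_sq₀ (norm_nonneg _) hρ0.le).1 h1
  obtain ⟨p1, p2⟩ := dec x hx hxe
  obtain ⟨q1, q2⟩ := dec x' hx' hx'e
  obtain ⟨r, r1, r2, r3, r4⟩ := exists_mid hm hρ0 p1 q1 p2 q2
  have s1 := seg _ r p1 r1 p2 r2 r3
  have s2 := seg r _ r1 p1 r2 p2 (by rw [real_inner_comm]; exact r3)
  have s3 := seg r _ r1 q1 r2 q2 (by rw [real_inner_comm]; exact r4)
  have s4 := seg _ r q1 r1 q2 r2 r4
  have ex : -(c • e) + (x + c • e) = x := by abel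
  have ex' : -(c • e) + (x' + c • e) = x' := by abel
  rw [ex] at s1
  rw [ex'] at s4
  rw [add_comm r (x + c • e)] at s2
  rw [add_comm r (x' + c • e)] at s3
  set f0 := F (-(c • e) + r) with hf0
  set f1 := F (-(c • e) + (x + c • e + r)) with hf1
  set f2 := F (-(c • e) + (x' + c • e + r)) with hf2
  have e5 : F x - F x' = -(f1 - F x) + (f1 - f0) + (-(f2 - f0) + (f2 - F x')) := by abel
  rw [e5]
  refine (norm_add_le _ _).trans ?_
  have t1 := norm_add_le (-(f1 - F x)) (f1 - f0)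
  have t2 := norm_add_le (-(f2 - f0)) (f2 - F x')
  rw [norm_neg] at t1 t2
  linarith

end Pool.Agent.Helper23.RFn
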