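import Pool.Agent.Helper47.RFn.Alg

/-!
# Packet RFn-NR (MP_c98eff_gt): reaction term near constant curvature
-/

namespace Pool.Agent.Helper47.RFn

open Finset

namespace NR

variable {n : ℕ}

theorem sum4_swap_cd (F : T4 n) :
    (∑ a, ∑ b, ∑ c, ∑ d, F a b d c) = ∑ a, ∑ b, ∑ c, ∑ d, F a b c d :=
  sum_congr rfl fun _ _ => sum_congr rfl fun _ _ => sum_comm

theorem sum4_swap_ab (F : T4 n) :
    (∑ a, ∑ b, ∑ c, ∑ d, F b a c d) = ∑ a, ∑ b, ∑ c, ∑ d, F a b c d := sum_comm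

theorem ip_wdg (E : T4 n) (hE : IsCurv E) (A : M2 n) :
    (∑ a, ∑ b, ∑ c, ∑ d, E a b c d * wdg A 1 a b c d) = 2 * ∑ a, ∑ c, Ric E a c * A a c := by
  set F : T4 n := fun a b c d => E a b c d * (A a c * (1 : M2 n) b d) with hF
  have h0 : ∀ a b c d, E a b c d * wdg A 1 a b c d =
      (F a b c d + F a b d c + F b a d c + F b a c d) / 2 := by
    intro a b c d
    simp only [hF, wdg]
    have e1 : E a b d c = - E a b c d := hE.a34 a b d c
    have e2 : E b a c d = - E a b c d := hE.a12 b a c d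
    have e3 : E b a d c = E a b c d := by rw [hE.a12, hE.a34]; ring
    rw [e1, e2, e3]
    ring
  have h1 : (∑ a, ∑ b, ∑ c, ∑ d, F a b c d) = ∑ a, ∑ c, Ric E a c * A a c := by
    simp only [hF, Matrix.one_apply, mul_ite, mul_one, mul_zero, sum_ite_eq, mem_univ, if_true, Ric,
      sum_mul]
    exact sum_congr rfl fun a _ => sum_comm
  calc (∑ a, ∑ b, ∑ c, ∑ d, E a b c d * wdg A 1 a b c d)
      = ∑ a, ∑ b, ∑ c, ∑ d, (F a b c d + F a b d c + F b a d c + F b a c d) / 2 := by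
        simp only [h0]
    _ = ((∑ a, ∑ b, ∑ c, ∑ d, F a b c d) + (∑ a, ∑ b, ∑ c, ∑ d, F a b d c)
          + (∑ a, ∑ b, ∑ c, ∑ d, F b a d c) + (∑ a, ∑ b, ∑ c, ∑ d, F b a c d)) / 2 := by
        simp only [← sum_div, sum_add_distrib]
    _ = 2 * ∑ a, ∑ c, Ric E a c * A a c := by
        rw [sum4_swap_cd F, sum4_swap_ab F, sum4_swap_ab (fun a b c d => F a b d c),
          sum4_swap_cd F, h1]
        ring

theorem le_sum4 (F : T4 n) (hF : ∀ a b c d, 0 ≤ F a b c d) (a b c d : Fin n) :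
    F a b c d ≤ ∑ a, ∑ b, ∑ c, ∑ d, F a b c d := by
  calc F a b c d ≤ ∑ d, F a b c d := single_le_sum (f := fun d => F a b c d)
        (fun d _ => hF a b c d) (mem_univ d)
    _ ≤ ∑ c, ∑ d, F a b c d := single_le_sum (f := fun c => ∑ d, F a b c d)
        (fun c _ => sum_nonneg fun d _ => hF a b c d) (mem_univ c)
    _ ≤ ∑ b, ∑ c, ∑ d, F a b c d := single_le_sum (f := fun b => ∑ c, ∑ d, F a b c d)
        (fun b _ => sum_nonneg fun c _ => sum_nonneg fun d _ => hF a b c d) (mem_univ b)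
    _ ≤ ∑ a, ∑ b, ∑ c, ∑ d, F a b c d := single_le_sum (f := fun a => ∑ b, ∑ c, ∑ d, F a b c d)
        (fun a _ => sum_nonneg fun b _ => sum_nonneg fun c _ => sum_nonneg fun d _ => hF a b c d)
        (mem_univ a)

theorem BB_le (E : T4 n) (s : ℝ) (hs : ∀ a b c d, |E a b c d| ≤ s) (a b c d : Fin n) :
    |BB E E a b c d| ≤ (n : ℝ) ^ 2 * s ^ 2 := by
  unfold BB
  have hs0 : 0 ≤ s := (abs_nonneg _).trans (hs a b c d)
  calc |∑ e, ∑ f, E a e b f * E c e d f| ≤ ∑ e, ∑ f, |E a e b f * E c e d f| :=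
        (abs_sum_le_sum_abs _ _).trans (sum_le_sum fun e _ => abs_sum_le_sum_abs _ _)
    _ ≤ ∑ _e : Fin n, ∑ _f : Fin n, s * s := by
        refine sum_le_sum fun e _ => sum_le_sum fun f _ => ?_
        rw [abs_mul]
        exact mul_le_mul (hs _ _ _ _) (hs _ _ _ _) (abs_nonneg _) hs0
    _ = (n : ℝ) ^ 2 * s ^ 2 := by
        simp only [sum_const, card_univ, Fintype.card_fin, nsmul_eq_mul]; ring

theorem Q_le (E : T4 n) (s : ℝ) (hs : ∀ a b c d, |E a b c d| ≤ s) (a b c d : Fin n) :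
    |Q E a b c d| ≤ 4 * ((n : ℝ) ^ 2 * s ^ 2) := by
  unfold Q
  have h1 := abs_le.1 (BB_le E s hs a b c d)
  have h2 := abs_le.1 (BB_le E s hs a b d c)
  have h3 := abs_le.1 (BB_le E s hs a c b d)
  have h4 := abs_le.1 (BB_le E s hs a d b c)
  rw [abs_le]
  constructor
  · linarith [h1.1, h2.2, h3.1, h4.2]
  · linarith [h1.2, h2.1, h3.2, h4.1]

end NR

open NR in
theorem goal_NR (hQB : Goal_QB) (hPK : Goal_PK) (hSH : Goal_SH) (hLN : Goal_LN) (hCL : Goal_CL) :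
    Goal_NR := by
  intro n hn
  have hn1 : (4 : ℝ) ≤ n := by exact_mod_cast hn
  refine ⟨4 * (n : ℝ) ^ 6 + 1, by positivity, ?_⟩
  intro R E hR hl hE
  obtain ⟨cQ, cW, cI, cA, cS, cSub, cSy, -, -⟩ := hCL n
  obtain ⟨-, -, lRa, lRs, lla, lls, lW, -, lI, llI, -, -, -, -⟩ := hLN n
  obtain ⟨-, -, -, -, -, -, qL⟩ := hQB n
  set κ : ℝ := lam R / ((n : ℝ) - 1) with hκ
  have hκ0 : 0 ≤ κ := div_nonneg hl (by linarith)
  have hκ1 : κ * ((n : ℝ) - 1) = lam R := by rw [hκ]; field_simp [show (n : ℝ) - 1 ≠ 0 by linarith]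
  have hEc : IsCurv E := hE ▸ cSub _ _ hR (cS κ _ cI)
  have hRE : R = E + κ • Id4 n := by rw [hE]; abel
  have hlamE : lam E = 0 := by
    have h := congrArg lam hRE
    rw [lla, lls, llI (by omega)] at h
    linarith
  have htr : (Ric E).trace = 0 := by
    have h : lam E = (Ric E).trace / n := rfl
    rw [hlamE] at h
    have hn0 : (n : ℝ) ≠ 0 := by linarith
    rw [eq_div_iff hn0, zero_mul] at h
    exact h.symm
  set A : M2 n := Ric E with hA
  have hAs : A.IsSymm := (cSy E hEc).1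
  have hRic0 : Ric0 R = A := by
    unfold Ric0
    have h := congrArg Ric hRE
    rw [lRa, lRs, lI] at h
    rw [h, ← hκ1, smul_smul]
    simp [hA]
  set NE : ℝ := ∑ a, ∑ b, ∑ c, ∑ d, E a b c d ^ 2 with hNE
  set NA : ℝ := ∑ a, ∑ c, A a c * A a c with hNA
  have hNA0 : 0 ≤ NA := sum_nonneg fun a _ => sum_nonneg fun c _ => mul_self_nonneg _
  have hNE0 : 0 ≤ NE := sum_nonneg fun a _ => sum_nonneg fun b _ => sum_nonneg fun c _ =>
    sum_nonneg fun d _ => sq_nonneg _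
  have ipEW : (∑ a, ∑ b, ∑ c, ∑ d, E a b c d * wdg A 1 a b c d) = 2 * NA := ip_wdg E hEc A
  have ipEI : (∑ a, ∑ b, ∑ c, ∑ d, E a b c d * Id4 n a b c d) = 0 := by
    have h := ip_wdg E hEc 1
    unfold Id4
    rw [h]
    have h2 : (∑ a, ∑ c, Ric E a c * (1 : M2 n) a c) = (Ric E).trace := by
      simp only [Matrix.one_apply, mul_ite, mul_one, mul_zero, sum_ite_eq, mem_univ, if_true]
      rfl
    rw [h2, htr]; ring
  have ipWW : (∑ a, ∑ b, ∑ c, ∑ d, wdg A 1 a b c d * wdg A 1 a b c d) = ((n : ℝ) - 2) * NA := by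
    have h := ip_wdg (wdg A 1) (cW A 1 hAs (Matrix.isSymm_one)) A
    rw [h, lW A hAs, htr]
    simp only [zero_div, zero_smul, add_zero, Matrix.smul_apply, smul_eq_mul]
    rw [hNA, mul_sum, mul_sum]
    refine sum_congr rfl fun a _ => ?_
    rw [mul_sum, mul_sum]
    refine sum_congr rfl fun c _ => ?_
    ring
  -- `|Ric E|² ≤ (n-2)/4 |E|²`
  have hRicE : 4 * NA ≤ ((n : ℝ) - 2) * NE := by
    set t : ℝ := 2 / ((n : ℝ) - 2) with ht
    have h0 : 0 ≤ ∑ a, ∑ b, ∑ c, ∑ d, (E a b c d - t * wdg A 1 a b c d) ^ 2 :=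
      sum_nonneg fun a _ => sum_nonneg fun b _ => sum_nonneg fun c _ =>
        sum_nonneg fun d _ => sq_nonneg _
    have h1 : (∑ a, ∑ b, ∑ c, ∑ d, (E a b c d - t * wdg A 1 a b c d) ^ 2) =
        NE - 2 * t * (∑ a, ∑ b, ∑ c, ∑ d, E a b c d * wdg A 1 a b c d)
          + t ^ 2 * (∑ a, ∑ b, ∑ c, ∑ d, wdg A 1 a b c d * wdg A 1 a b c d) := by
      rw [hNE]
      simp only [mul_sum, ← sum_sub_distrib, ← sum_add_distrib]
      refine sum_congr rfl fun a _ => sum_congr rfl fun b _ => sum_congr rfl fun c _ =>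
        sum_congr rfl fun d _ => ?_
      ring
    rw [h1, ipEW, ipWW] at h0
    have hn2 : (0 : ℝ) < (n : ℝ) - 2 := by linarith
    have h2 : NE - 2 * t * (2 * NA) + t ^ 2 * (((n : ℝ) - 2) * NA) = NE - 4 * NA / ((n : ℝ) - 2) := by
      rw [ht]; field_simp; ring
    rw [h2] at h0
    have h3 : 4 * NA / ((n : ℝ) - 2) ≤ NE := by linarith
    rw [div_le_iff₀ hn2] at h3
    linarith
  -- `⟨E, Q E⟩ ≤ C |E|³`
  have hs : ∀ a b c d, |E a b c d| ≤ Real.sqrt NE := fun a b c d =>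
    Real.abs_le_sqrt (le_sum4 (fun a b c d => E a b c d ^ 2) (fun _ _ _ _ => sq_nonneg _) a b c d)
  have hs2 : Real.sqrt NE ^ 2 = NE := Real.sq_sqrt hNE0
  have hs0 : 0 ≤ Real.sqrt NE := Real.sqrt_nonneg _
  have hQE : (∑ a, ∑ b, ∑ c, ∑ d, E a b c d * Q E a b c d) ≤
      4 * (n : ℝ) ^ 6 * NE * Real.sqrt NE := by
    calc (∑ a, ∑ b, ∑ c, ∑ d, E a b c d * Q E a b c d)
        ≤ ∑ _a : Fin n, ∑ _b : Fin n, ∑ _c : Fin n, ∑ _d : Fin n,
            Real.sqrt NE * (4 * ((n : ℝ) ^ 2 * Real.sqrt NE ^ 2)) := by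
          refine sum_le_sum fun a _ => sum_le_sum fun b _ => sum_le_sum fun c _ =>
            sum_le_sum fun d _ => ?_
          refine (le_abs_self _).trans ?_
          rw [abs_mul]
          exact mul_le_mul (hs _ _ _ _) (Q_le E _ hs _ _ _ _) (abs_nonneg _) hs0
      _ = 4 * (n : ℝ) ^ 6 * NE * Real.sqrt NE := by
          simp only [sum_const, card_univ, Fintype.card_fin, nsmul_eq_mul, hs2]; ring
  have hQR : Q R = Q E + (2 * κ) • wdg A 1 + (((n : ℝ) - 1) * κ ^ 2) • Id4 n := by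
    have h := hSH n E κ hEc
    rw [← hRE] at h
    exact h
  have hmain : (∑ a, ∑ b, ∑ c, ∑ d, E a b c d * Q R a b c d) =
      (∑ a, ∑ b, ∑ c, ∑ d, E a b c d * Q E a b c d)
        + 2 * κ * (∑ a, ∑ b, ∑ c, ∑ d, E a b c d * wdg A 1 a b c d)
        + (((n : ℝ) - 1) * κ ^ 2) * (∑ a, ∑ b, ∑ c, ∑ d, E a b c d * Id4 n a b c d) := by
    rw [hQR]
    simp only [mul_sum, ← sum_add_distrib]
    refine sum_congr rfl fun a _ => sum_congr rfl fun b _ => sum_congr rfl fun c _ =>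
      sum_congr rfl fun d _ => ?_
    simp only [Pi.add_apply, Pi.smul_apply, smul_eq_mul]
    ring
  have hsig : sig R = NA / n := by
    unfold sig
    rw [hRic0, hNA]
    congr 1
    exact sum_congr rfl fun a _ => sum_congr rfl fun b _ => sq _
  have hlQ := qL R hR (by omega)
  rw [hmain, ipEW, ipEI, hlQ, hsig]
  clear_value NE NA κ
  generalize (∑ a, ∑ b, ∑ c, ∑ d, E a b c d * Q E a b c d) = X at hQE ⊢
  generalize lam R = L at hl hκ hκ1 ⊢
  clear hmain hQR hs hE hRE hs2 ipWW ipEW ipEI hRic0 hAs htr hlamE hEc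
  refine ⟨?_, ?_, ?_⟩
  · have h1 : 2 * κ * (2 * NA) ≤ ((n : ℝ) - 2) / ((n : ℝ) - 1) * L * NE := by
      have h2 : κ * (4 * NA) ≤ κ * (((n : ℝ) - 2) * NE) := mul_le_mul_of_nonneg_left hRicE hκ0
      have h3 : κ * (((n : ℝ) - 2) * NE) = ((n : ℝ) - 2) / ((n : ℝ) - 1) * L * NE := by
        rw [hκ]; ring
      linarith
    have h4 : 0 ≤ NE * Real.sqrt NE := mul_nonneg hNE0 hs0
    linarith
  · have : 0 ≤ NA / n := div_nonneg hNA0 (by linarith)
    linarith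
  · have h1 : NA / n ≤ NE := by
      rw [div_le_iff₀ (by linarith)]
      nlinarith
    have h2 : 0 ≤ 4 * (n : ℝ) ^ 6 * NE := by positivity
    linarith

end Pool.Agent.Helper47.RFn
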